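import Pool.Agent.Lib.MP_009fd8_agE.MainD

/-!
MP_009fd8_ag: the complete 2-descent on all quadratic twists E_n : y^2 = x^3 - n^2 x of the curve
y^2 = x^3 - x over every number field K in which 2 is unramified; n is any nonzero element of K.
(1) The 2-Selmer group is described exactly by explicit local conditions at every place: up to a
torsion pair depending on the place, the pair (a, b) is positive at the real places, has even
valuations at the places v not above 2 with v(n) even, consists of squares at the places not above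
2 with v(n) odd, and lies in an explicit set of classes modulo 8 at the places above 2.
(2) A finite set P of inequivalent 2-coverings with a K-point contains all the everywhere locally
soluble 2-coverings up to equivalence if and only if at most 4 |P| classes modulo squares satisfy
these conditions.
-/

namespace Pool.Agent.Results.MP_009fd8_ag.EveryField

open Pool.Agent.MP009fd8 Pool.Agent.MP009fd8E NumberField IsDedekindDomain

theorem result {K : Type*} [Field K] [NumberField K]
    (hunr : ∀ v : HeightOneSpectrum (𝓞 K), (2 : 𝓞 K) ∉ v.asIdeal ^ 2)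
    (n : K) (hn : n ≠ 0) :
    (∀ a b : K, a ≠ 0 → b ≠ 0 → (SelmerPair K n a b ↔ LocalCond n a b)) ∧
    (∀ P : Finset (K × K),
      (∀ x ∈ P, x.1 ≠ 0 ∧ x.2 ≠ 0 ∧ HasPoint n x.1 x.2) →
      (∀ x ∈ P, ∀ x' ∈ P, x ≠ x' → ¬ TorsionPair n (x.1 * x'.1) (x.2 * x'.2)) →
      ((∀ T : Finset (K × K), (∀ x ∈ T, x.1 ≠ 0 ∧ x.2 ≠ 0 ∧ LocalCond n x.1 x.2) →
        (∀ x ∈ T, ∀ x' ∈ T, IsSquare (x.1 * x'.1) → IsSquare (x.2 * x'.2) → x = x') →
        T.card ≤ 4 * P.card) ↔
      ∀ a b : K, a ≠ 0 → b ≠ 0 →
        (SelmerPair K n a b ↔ HasPoint n a b) ∧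
        (SelmerPair K n a b ↔ ∃ x ∈ P, TorsionPair n (a * x.1) (b * x.2)))) :=
  every_field_iff hunr hn

end Pool.Agent.Results.MP_009fd8_ag.EveryField
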