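import Pool.Agent.Lib.MP_009fd8_agF.FinalL
import Pool.Agent.Lib.MP_009fd8_agQ.Quintic
import Pool.Agent.Lib.MP_009fd8_agQ.RankOneFive

/-!
MP_009fd8_ag: Jacobians of the curves `C_(r,n) : y ^ p = x ^ r (x + n)` over number fields containing
the `p`-th roots of unity; descent by the endomorphism `1 - ζ`. Definitions: `Def.lean`, `CondL.lean`
in `Pool/Agent/Lib/MP_009fd8_agF`.
-/

namespace Pool.Agent.Results.MP_009fd8_ag.FermatQuotients

open IsDedekindDomain NumberField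
open Pool.Agent.MP009fd8F (InImage Selmer)
open Pool.Agent.MP009fd8F.Crit

/-- (A) Let `p` be an odd prime, `1 ≤ r ≤ p - 2`, `K` a number field containing a primitive `p`-th
root of unity `ζ`, `n ∈ Kˣ` and `τ v ∈ 𝓞 K` for all finite places `v`, with `CritAt` at all places
above `p` (the critical value `n ^ (r + 1) r ^ r / (r + 1) ^ (r + 1)` is a `p`-th power modulo `p`).
Let `P` be a subgroup of `Kˣ` that contains the `p`-th powers and whose elements lie in the image of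
`J_(r,n)(K)`. If there are enough points (`EnoughPoints`) or the explicit group `G_n`
(`StrictSelmer`) is contained in `P`, then the Selmer group of `1 - ζ` on `J_(r,n)`, the image of
`J_(r,n)(K)` and `P` coincide.

In particular, with no hypothesis left, for `K = Q(ζ5)`:

(B) for `n = q ^ j`, `q` any prime congruent to 2 or 3 modulo 5, `j` prime to 5, and `n ^ 4` modulo 25
in `{11, 16, 21}` (`r = 1`) or in `{6, 11, 21}` (`r = 2, 3`), the Selmer group of `1 - ζ5` and the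
image of `J_(r,n)(K)` are both generated by `n` (rank 0; for every `q` other than 7, 18 modulo 25
and every `r` this holds for three of the four classes of `j` modulo 5);

(C) for `r = 1`, `n = 4 - 10 ζ - 5 ζ ^ 3` and `w = 1 + ζ - ζ ^ 2 + 2 ζ ^ 3` they are both generated by
`n` and `w`, which are independent modulo fifth powers (positive rank). -/
theorem result :
    (∀ {p r : ℕ}, p.Prime → 1 ≤ r → r + 2 ≤ p →
      ∀ {K : Type} [Field K] [NumberField K] {ζ : K}, IsPrimitiveRoot ζ p → ∀ (n : Kˣ)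
        (τ : HeightOneSpectrum (𝓞 K) → 𝓞 K),
        (∀ v : HeightOneSpectrum (𝓞 K), v.valuation K (p : K) < 1 →
          CritAt p r (1 - ζ) (n : K) (τ v) v) →
        ∀ P : Subgroup Kˣ, (∀ c : Kˣ, c ^ p ∈ P) → (∀ a ∈ P, InImage p r (n : K) (a : K)) →
          (EnoughPoints p K (1 - ζ) (n : K) τ P ∨
            ∀ a : Kˣ, StrictSelmer p K (1 - ζ) (n : K) τ (a : K) → a ∈ P) →
          ∀ a : Kˣ, (Selmer p r K (n : K) (a : K) ↔ a ∈ P) ∧
            (InImage p r (n : K) (a : K) ↔ a ∈ P)) ∧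
    (∀ {K : Type} [Field K] [NumberField K] [IsCyclotomicExtension {5} ℚ K] {q j n r : ℕ},
      q.Prime → (q % 5 = 2 ∨ q % 5 = 3) → ¬ 5 ∣ j → n = q ^ j →
      ((r = 1 ∧ (n ^ 4 % 25 = 11 ∨ n ^ 4 % 25 = 16 ∨ n ^ 4 % 25 = 21)) ∨
        ((r = 2 ∨ r = 3) ∧ (n ^ 4 % 25 = 6 ∨ n ^ 4 % 25 = 11 ∨ n ^ 4 % 25 = 21))) →
      ∀ a : Kˣ,
        (Selmer 5 r K (n : K) (a : K) ↔ ∃ (i : ℕ) (c : Kˣ), (a : K) = (n : K) ^ i * (c : K) ^ 5) ∧
        (InImage 5 r (n : K) (a : K) ↔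
          ∃ (i : ℕ) (c : Kˣ), (a : K) = (n : K) ^ i * (c : K) ^ 5)) ∧
    (∀ {K : Type} [Field K] [NumberField K] [IsCyclotomicExtension {5} ℚ K] {ζ : K},
      IsPrimitiveRoot ζ 5 → ∀ n w : K, n = 4 - 10 * ζ - 5 * ζ ^ 3 →
      w = 1 + ζ - ζ ^ 2 + 2 * ζ ^ 3 →
        (∀ a : Kˣ,
          (Selmer 5 1 K n (a : K) ↔
            ∃ (i j : ℕ) (c : Kˣ), (a : K) = n ^ i * w ^ j * (c : K) ^ 5) ∧
          (InImage 5 1 n (a : K) ↔
            ∃ (i j : ℕ) (c : Kˣ), (a : K) = n ^ i * w ^ j * (c : K) ^ 5)) ∧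
        ∀ (i j : ℕ) (c : K), n ^ i * w ^ j = c ^ 5 → 5 ∣ i ∧ 5 ∣ j) :=
  ⟨fun hp hr1 hr2 _ _ _ _ hζ n τ hnp P hPp hPJ h a =>
    selmer_eq_image hp hr1 hr2 hζ n τ hnp P hPp hPJ h a,
    fun hq hq5 hj hn hgood a => Pool.Agent.MP009fd8Q.quintic_pow hq hq5 hj hn hgood a,
    fun hζ n w hn hw => by
      subst hn hw
      exact Pool.Agent.MP009fd8Q.rank_one hζ⟩

end Pool.Agent.Results.MP_009fd8_ag.FermatQuotients
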