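import Pool.Agent.Lib.MP_009fd8_agS.GRank

/-!
MP_009fd8_ag: 2-isogeny descent on all elliptic curves y^2 = x (x^2 + A x + B) with a rational
point of order 2, over all number fields.
-/

namespace Pool.Agent.Results.MP_009fd8_ag.IsogenyDescent

open Pool.Agent.MP009fd8S NumberField IsDedekindDomain

theorem result {K : Type*} [Field K] [NumberField K] (A B A' B' : K)
    (hA' : A' = -2 * A) (hB' : B' = A ^ 2 - 4 * B) (hB : B ≠ 0) (hB0 : B' ≠ 0) :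
    (∀ d : K, d ≠ 0 →
      (LocSol K A B d → Grp A B d) ∧ (LocSol K A' B' d → Grp A' B' d)) ∧
    (∀ S : Set K, (∀ g ∈ S, g ≠ 0 ∧ HasPoint A B g) →
      (∀ x : K, x ≠ 0 → Grp A B x → InClasses S x) →
      ∀ d : K, d ≠ 0 →
        (LocSol K A B d ↔ HasPoint A B d) ∧ (HasPoint A B d ↔ Grp A B d)) ∧
    (∀ S : Set K, (∀ g ∈ S, g ≠ 0 ∧ HasPoint A' B' g) →
      (∀ x : K, x ≠ 0 → Grp A' B' x → InClasses S x) →
      ∀ d : K, d ≠ 0 →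
        (LocSol K A' B' d ↔ HasPoint A' B' d) ∧ (HasPoint A' B' d ↔ Grp A' B' d)) ∧
    (∀ (U : Set K) (a c n r : 𝓞 K),
      (∀ g ∈ U, g ≠ 0 ∧ HasPoint A B g) →
      A = algebraMap (𝓞 K) K (a * n) → B = algebraMap (𝓞 K) K (16 * (c * n ^ 2)) →
      4 ∣ a * n - r ^ 2 → IsCoprime (a * n) 2 →
      (∀ v : HeightOneSpectrum (𝓞 K), n ∈ v.asIdeal → ∀ m : 𝓞 K,
        c - m ^ 2 ∉ v.asIdeal ∧ a ^ 2 - 64 * c - m ^ 2 ∉ v.asIdeal) →
      Odd (NumberField.classNumber K) → OnePlace c → OnePlace (a ^ 2 - 64 * c) →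
      (∀ u : (𝓞 K)ˣ, Grp A B (algebraMap (𝓞 K) K (u : 𝓞 K)) →
        InClasses (insert (algebraMap (𝓞 K) K c) U) (algebraMap (𝓞 K) K (u : 𝓞 K))) →
      (∀ S : Set (K →+* ℝ), ∃ t : (𝓞 K)ˣ, ∀ f : K →+* ℝ, NegAt A B f →
        (f (algebraMap (𝓞 K) K (t : 𝓞 K)) < 0 ↔ f ∈ S)) →
      ∀ d : K, d ≠ 0 →
        ((LocSol K A B d ↔ HasPoint A B d) ∧
          (HasPoint A B d ↔ InClasses (insert (algebraMap (𝓞 K) K c) U) d)) ∧
        ((LocSol K A' B' d ↔ HasPoint A' B' d) ∧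
          (HasPoint A' B' d ↔ InClasses {algebraMap (𝓞 K) K (a ^ 2 - 64 * c)} d))) ∧
    (∀ u Q R a c : 𝓞 K, a = 1 + 16 * (u * (Q ^ 2 - R ^ 2)) →
      c = u * (Q ^ 2 - R ^ 2 - 16 * (u * (Q ^ 2 * R ^ 2))) →
      A = algebraMap (𝓞 K) K a → B = algebraMap (𝓞 K) K (16 * c) →
      Odd (NumberField.classNumber K) → OnePlace c → OnePlace (a ^ 2 - 64 * c) →
      (∀ t : (𝓞 K)ˣ, InClasses {algebraMap (𝓞 K) K c, -1, algebraMap (𝓞 K) K u}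
        (algebraMap (𝓞 K) K (t : 𝓞 K))) →
      ∀ d : K, d ≠ 0 →
        ((LocSol K A B d ↔ HasPoint A B d) ∧
          (HasPoint A B d ↔
            InClasses {algebraMap (𝓞 K) K c, -1, algebraMap (𝓞 K) K u} d)) ∧
        ((LocSol K A' B' d ↔ HasPoint A' B' d) ∧
          (HasPoint A' B' d ↔ InClasses {algebraMap (𝓞 K) K (a ^ 2 - 64 * c)} d))) :=
  theRank A B A' B' hA' hB' hB hB0

end Pool.Agent.Results.MP_009fd8_ag.IsogenyDescent
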