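import Pool.Agent.Lib.MP_009fd8_agU.Rank0

/-!
MP_009fd8_ag (Abel-Jacobi maps onto Bloch-Kato Selmer groups): descent by 3-isogenies on the
elliptic curves with a rational point of order 3, y^2 + a x y + b y = x^3, over number fields.
-/

open NumberField Pool.Agent.MP009fd8U

/-- Let K be a number field, a and b integers of K with b ≠ 0 and D = a^3 - 27 b ≠ 0.
(1) The classes of the everywhere locally soluble coverings for (a, b) lie in the explicit
group GroupA.
(2) If GroupA is generated modulo cubes by classes whose coverings have points over K, then the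
covering of class d for (a, b) is everywhere locally soluble iff it has a point over K iff d is
in GroupA.
If moreover θ is an integer of K with θ^2 = -3:
(1') the classes of the everywhere locally soluble coverings for (3 a, D) lie in the explicit
group GroupB;
(2') if Q is a set of classes and the classes of GroupB in Q are generated modulo cubes by
classes whose coverings for (3 a, D) have points over K, then for d in Q the covering of class
d for (3 a, D) is everywhere locally soluble iff it has a point over K iff d is in GroupB;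
(3) if the class number of K is prime to 3, b and D generate the unit ideal or prime powers
with exponent prime to 3, U is a set of units u with b = a X Y - u X^3 - u^(-1) Y^3 for some
X, Y in K, the units in GroupA are generated modulo cubes by b and U and the units in GroupB
are cubes, then the covering of class d for (a, b) is everywhere locally soluble iff it has a
point over K iff d is generated modulo cubes by b and U, and the covering of class d for
(3 a, D) is everywhere locally soluble iff d is generated modulo cubes by D. -/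
theorem Pool.Agent.Results.MP_009fd8_ag.ThreeIsogeny.result {K : Type*} [Field K]
    [NumberField K] (a b : 𝓞 K) (hb : b ≠ 0) (hD : a ^ 3 - 27 * b ≠ 0) :
    (∀ d : K, d ≠ 0 →
      LocSol K (algebraMap (𝓞 K) K a) (algebraMap (𝓞 K) K b) d → GroupA a b d) ∧
    (∀ S : Set K,
      (∀ g ∈ S, g ≠ 0 ∧ HasPoint (algebraMap (𝓞 K) K a) (algebraMap (𝓞 K) K b) g) →
      Generates S (GroupA a b) → ∀ d : K, d ≠ 0 →
      (LocSol K (algebraMap (𝓞 K) K a) (algebraMap (𝓞 K) K b) d ↔
        HasPoint (algebraMap (𝓞 K) K a) (algebraMap (𝓞 K) K b) d) ∧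
      (LocSol K (algebraMap (𝓞 K) K a) (algebraMap (𝓞 K) K b) d ↔ GroupA a b d)) ∧
    ∀ θ : 𝓞 K, θ ^ 2 = -3 →
      (∀ d : K, d ≠ 0 →
        LocSol K (algebraMap (𝓞 K) K (3 * a)) (algebraMap (𝓞 K) K (a ^ 3 - 27 * b)) d →
          GroupB θ a b d) ∧
      (∀ Q S : Set K,
        (∀ g ∈ S, g ≠ 0 ∧
          HasPoint (algebraMap (𝓞 K) K (3 * a)) (algebraMap (𝓞 K) K (a ^ 3 - 27 * b)) g) →
        Generates S (fun x => x ∈ Q ∧ GroupB θ a b x) → ∀ d : K, d ≠ 0 → d ∈ Q →
        (LocSol K (algebraMap (𝓞 K) K (3 * a)) (algebraMap (𝓞 K) K (a ^ 3 - 27 * b)) d ↔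
          HasPoint (algebraMap (𝓞 K) K (3 * a)) (algebraMap (𝓞 K) K (a ^ 3 - 27 * b)) d) ∧
        (LocSol K (algebraMap (𝓞 K) K (3 * a)) (algebraMap (𝓞 K) K (a ^ 3 - 27 * b)) d ↔
          GroupB θ a b d)) ∧
      (¬ 3 ∣ NumberField.classNumber K → OnePlace b → OnePlace (a ^ 3 - 27 * b) →
        ∀ U : Set K,
        (∀ u ∈ U, (∃ s : (𝓞 K)ˣ, u = algebraMap (𝓞 K) K s) ∧
          ∃ X Y : K,
            algebraMap (𝓞 K) K b = algebraMap (𝓞 K) K a * X * Y - u * X ^ 3 - u⁻¹ * Y ^ 3) →
        (∀ s : (𝓞 K)ˣ, GroupA a b (algebraMap (𝓞 K) K s) →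
          InClasses (insert (algebraMap (𝓞 K) K b) U) (algebraMap (𝓞 K) K s)) →
        (∀ s : (𝓞 K)ˣ, GroupB θ a b (algebraMap (𝓞 K) K s) →
          ∃ w : K, algebraMap (𝓞 K) K s = w ^ 3) →
        ∀ d : K, d ≠ 0 →
        ((LocSol K (algebraMap (𝓞 K) K a) (algebraMap (𝓞 K) K b) d ↔
            HasPoint (algebraMap (𝓞 K) K a) (algebraMap (𝓞 K) K b) d) ∧
          (LocSol K (algebraMap (𝓞 K) K a) (algebraMap (𝓞 K) K b) d ↔
            InClasses (insert (algebraMap (𝓞 K) K b) U) d)) ∧
        (LocSol K (algebraMap (𝓞 K) K (3 * a)) (algebraMap (𝓞 K) K (a ^ 3 - 27 * b)) d ↔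
          InClasses {algebraMap (𝓞 K) K (a ^ 3 - 27 * b)} d)) :=
  ⟨fun _ hd => groupA_of_locSol hd, fun _ hS hgen => sideA hb hS hgen, fun _ hθ =>
    ⟨fun _ hd => groupB_of_locSol hθ hd, fun _ _ hS hgen => sideB hθ hD hS hgen,
      fun hclass hb1 hD1 U hU huA huB => explicit_rank hθ hb hD hclass hb1 hD1 U hU huA huB⟩⟩
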